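import Pool.Agent.Helper45.AM.GoalsB
import Pool.Agent.Helper15.AM.GoalsG

/-!
# Packet AM-B3 (MP_cc6379_al): syllable length.
-/

set_option autoImplicit false

open LaurentPolynomial Pool.Agent.Helper15.RA Pool.Agent.Helper45.AM Pool.Agent.Helper15.AM

noncomputable section

namespace Pool.Agent.Helper97.AM

variable {S W H : Type} [Group W] [Ring H] [Algebra ℤ[T;T⁻¹] H]

/-- The facts that are used. -/
structure Ax (X : AC S W H) : Prop where
  dec : ∀ P w, ∃ x, ∃ g ∈ par X.cs P, XR X.cs P x ∧ w = x * g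
  len : ∀ P x, XR X.cs P x → ∀ g ∈ par X.cs P, X.cs.length (x * g) = X.cs.length x + X.cs.length g
  uni : ∀ P x x' g g', XR X.cs P x → XR X.cs P x' → g ∈ par X.cs P → g' ∈ par X.cs P →
    x * g = x' * g' → x = x' ∧ g = g'
  decL : ∀ P w, ∃ g ∈ par X.cs P, ∃ y, XL X.cs P y ∧ w = g * y
  b1 : ∀ b, par X.cs X.K ≤ par X.cs (X.F b)
  b3 : ∀ b x, XR X.cs (X.F b) x → XR X.cs X.K x
  b4 : ∀ x, XR X.cs X.K x → ∃ b, XR X.cs (X.F b) x
  b5 : ∀ b x, XR X.cs (X.F b) x → XR X.cs (X.F (!b)) x → x = 1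
  b6 : ∀ b x, XR X.cs (X.F b) x → x ≠ 1 → ∃ x' a, x = x' * a ∧ XR X.cs (X.F (!b)) x' ∧
    a ∈ par X.cs (X.F (!b)) ∧
    XR X.cs X.K a ∧ a ≠ 1 ∧ X.cs.length x = X.cs.length x' + X.cs.length a
  b7 : ∀ b x' a, XR X.cs (X.F (!b)) x' → a ∈ par X.cs (X.F (!b)) → XR X.cs X.K a → a ≠ 1 →
    XR X.cs (X.F b) (x' * a)
  b8 : ∀ a, XR X.cs X.K a ∨ XL X.cs X.K a → a ∈ par X.cs X.K → a = 1
  b9 : ∀ y, XL X.cs X.K y → ∃ b, XL X.cs (X.F b) y
  b11 : ∀ b y, XL X.cs (X.F b) y → y ≠ 1 → ∃ a y', y = a * y' ∧ XL X.cs (X.F (!b)) y' ∧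
    a ∈ par X.cs (X.F (!b)) ∧
    XL X.cs X.K a ∧ a ≠ 1 ∧ X.cs.length y = X.cs.length a + X.cs.length y'

/-- The normal form of elements of `X_b`. -/
inductive Nf (X : AC S W H) : Bool → ℕ → W → Prop
  | zero (b : Bool) : Nf X b 0 1
  | succ (b : Bool) (n : ℕ) (x a : W) : Nf X b n x → a ∈ par X.cs (X.F b) → XR X.cs X.K a → a ≠ 1 →
      Nf X (!b) (n + 1) (x * a)

variable {X : AC S W H}

lemma XR_one (P : Set S) : XR X.cs P 1 := by
  intro i _
  rw [one_mul, X.cs.length_simple, X.cs.length_one]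

lemma XL_one (P : Set S) : XL X.cs P 1 := by
  intro i _
  rw [mul_one, X.cs.length_simple, X.cs.length_one]

lemma Nf.xr (A : Ax X) {b : Bool} {n : ℕ} {x : W} (h : Nf X b n x) : XR X.cs (X.F b) x := by
  induction h with
  | zero b => exact XR_one _
  | succ b n x a _ ha h2 h3 ih =>
    refine A.b7 (!b) x a ?_ ?_ h2 h3
    · rwa [Bool.not_not]
    · rwa [Bool.not_not]

lemma Nf.exists (A : Ax X) : ∀ (m : ℕ) (b : Bool) (x : W), X.cs.length x = m →
    XR X.cs (X.F b) x → ∃ n, Nf X b n x := by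
  intro m
  induction m using Nat.strong_induction_on with
  | _ m ih =>
    intro b x hx hxr
    by_cases h1 : x = 1
    · exact ⟨0, h1 ▸ Nf.zero b⟩
    · obtain ⟨x', a, rfl, hx', ha, hak, ha1, hl⟩ := A.b6 b x hxr h1
      have hla : 0 < X.cs.length a := by
        rcases Nat.eq_zero_or_pos (X.cs.length a) with h | h
        · exact absurd (X.cs.length_eq_zero_iff.1 h) ha1
        · exact h
      obtain ⟨n, hn⟩ := ih (X.cs.length x') (by omega) (!b) x' rfl hx'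
      have := Nf.succ (!b) n x' a hn ha hak ha1
      rw [Bool.not_not] at this
      exact ⟨n + 1, this⟩

lemma Nf.inv {b : Bool} {n : ℕ} {w : W} (h : Nf X b n w) :
    (n = 0 ∧ w = 1) ∨ ∃ c m x a, b = !c ∧ n = m + 1 ∧ w = x * a ∧ Nf X c m x ∧
      a ∈ par X.cs (X.F c) ∧ XR X.cs X.K a ∧ a ≠ 1 := by
  cases h with
  | zero b => exact Or.inl ⟨rfl, rfl⟩
  | succ c m x a h1 h2 h3 h4 => exact Or.inr ⟨c, m, x, a, rfl, rfl, rfl, h1, h2, h3, h4⟩

lemma Nf.ne_one (A : Ax X) {c : Bool} {m : ℕ} {x a : W} (h1 : Nf X c m x)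
    (h2 : a ∈ par X.cs (X.F c)) (h4 : a ≠ 1) : x * a ≠ 1 := by
  intro h
  have := A.len _ x (h1.xr A) a h2
  rw [h, X.cs.length_one] at this
  exact h4 (X.cs.length_eq_zero_iff.1 (by omega))

lemma Nf.uni (A : Ax X) {b : Bool} {n : ℕ} {x : W} (h : Nf X b n x) :
    ∀ {b' : Bool} {n' : ℕ}, Nf X b' n' x → n = n' := by
  induction h with
  | zero b =>
    intro b' n' h'
    rcases h'.inv with ⟨h1, _⟩ | ⟨c, m, y, a, _, _, h3, h4, h5, _, h7⟩
    · exact h1.symm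
    · exact absurd h3.symm (h4.ne_one A h5 h7)
  | succ c m x a h1 h2 h3 h4 ih =>
    intro b' n' h'
    have hne := h1.ne_one A h2 h4
    have hxr := (Nf.succ c m x a h1 h2 h3 h4).xr A
    rcases h'.inv with ⟨_, h6⟩ | ⟨c', m', y, a', e1, e2, e3, h5, h6, _, h8⟩
    · exact absurd h6 hne
    · have hxr' := h'.xr A
      have hcc : c = c' := by
        by_contra hcc
        have : b' = !(!c) := by
          rw [e1]
          cases c <;> cases c' <;> simp_all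
        rw [this] at hxr'
        exact hne (A.b5 _ _ hxr hxr')
      subst hcc
      have := A.uni _ x y a a' (h1.xr A) (h5.xr A) h2 h6 e3
      obtain ⟨rfl, rfl⟩ := this
      rw [e2, ih h5]

/-- `w` has `n` syllables. -/
def NN (X : AC S W H) (w : W) (n : ℕ) : Prop :=
  ∃ b x k, Nf X b n x ∧ k ∈ par X.cs X.K ∧ w = x * k

lemma NN.exists (A : Ax X) (w : W) : ∃ n, NN X w n := by
  obtain ⟨x, k, hk, hx, rfl⟩ := A.dec X.K w
  obtain ⟨b, hb⟩ := A.b4 x hx
  obtain ⟨n, hn⟩ := Nf.exists A _ b x rfl hb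
  exact ⟨n, b, x, k, hn, hk, rfl⟩

lemma NN.uni (A : Ax X) {w : W} {n n' : ℕ} (h : NN X w n) (h' : NN X w n') : n = n' := by
  obtain ⟨b, x, k, h1, h2, rfl⟩ := h
  obtain ⟨b', x', k', h3, h4, h5⟩ := h'
  have := A.uni _ x x' k k' (A.b3 _ _ (h1.xr A)) (A.b3 _ _ (h3.xr A)) h2 h4 h5
  obtain ⟨rfl, rfl⟩ := this
  exact h1.uni A h3

/-- The number of syllables. -/
def N (A : Ax X) (w : W) : ℕ := Classical.choose (NN.exists A w)

lemma N_spec (A : Ax X) (w : W) : NN X w (N A w) := Classical.choose_spec (NN.exists A w)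

lemma N_eq (A : Ax X) {w : W} {n : ℕ} (h : NN X w n) : N A w = n := (N_spec A w).uni A h

lemma N_one (A : Ax X) : N A 1 = 0 :=
  N_eq A ⟨true, 1, 1, Nf.zero _, one_mem _, by rw [mul_one]⟩

lemma N_mulK (A : Ax X) (w k : W) (hk : k ∈ par X.cs X.K) : N A (w * k) = N A w := by
  obtain ⟨b, x, l, h1, h2, h3⟩ := N_spec A w
  refine N_eq A ⟨b, x, l * k, h1, mul_mem h2 hk, ?_⟩
  rw [← mul_assoc, ← h3]

lemma N_K (A : Ax X) (k : W) (hk : k ∈ par X.cs X.K) : N A k = 0 := by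
  have := N_mulK A 1 k hk
  rwa [one_mul, N_one] at this

lemma N_eq_zero (A : Ax X) (w : W) : N A w = 0 ↔ w ∈ par X.cs X.K := by
  constructor
  · intro h
    obtain ⟨b, x, l, h1, h2, h3⟩ := N_spec A w
    rw [h] at h1
    rcases h1.inv with ⟨_, e⟩ | ⟨_, m, _, _, _, e, _⟩
    · rw [h3, e, one_mul]
      exact h2
    · omega
  · exact N_K A w

/-- Decomposition of `g ∈ W_b`, `g ∉ W_K`. -/
lemma split (A : Ax X) (b : Bool) (g : W) (hg : g ∈ par X.cs (X.F b)) (hgK : g ∉ par X.cs X.K) :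
    ∃ z k, g = z * k ∧ k ∈ par X.cs X.K ∧ XR X.cs X.K z ∧ z ∈ par X.cs (X.F b) ∧
      z ∉ par X.cs X.K ∧ z ≠ 1 := by
  obtain ⟨z, k, hk, hz, rfl⟩ := A.dec X.K g
  have hzK : z ∉ par X.cs X.K := fun h => hgK (mul_mem h hk)
  refine ⟨z, k, rfl, hk, hz, ?_, hzK, ?_⟩
  · have := mul_mem hg (inv_mem (A.b1 b hk))
    rwa [mul_inv_cancel_right] at this
  · rintro rfl
    exact hzK (one_mem _)

lemma N_mul_right (A : Ax X) (b : Bool) (x g : W) (hx : XR X.cs (X.F b) x)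
    (hg : g ∈ par X.cs (X.F b)) (hgK : g ∉ par X.cs X.K) : N A (x * g) = N A x + 1 := by
  obtain ⟨z, k, rfl, hk, hz, hzb, hzK, hz1⟩ := split A b g hg hgK
  obtain ⟨n, hn⟩ := Nf.exists A _ b x rfl hx
  have h1 : N A x = n := N_eq A ⟨b, x, 1, hn, one_mem _, by rw [mul_one]⟩
  rw [h1]
  exact N_eq A ⟨!b, x * z, k, Nf.succ b n x z hn hzb hz hz1, hk, by rw [mul_assoc]⟩

lemma N_tp (A : Ax X) : ∀ (m : ℕ) (b : Bool) (x g y : W), X.cs.length y = m → X.Tp b x g y →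
    N A (x * g * y) = N A x + 1 + N A y := by
  intro m
  induction m using Nat.strong_induction_on with
  | _ m ih =>
    intro b x g y hm ⟨hx, hg, hgK, hy⟩
    by_cases h1 : y = 1
    · rw [h1, mul_one, N_one, add_zero]
      exact N_mul_right A b x g hx hg hgK
    · obtain ⟨a, y', rfl, hy', ha, haK, ha1, hl⟩ := A.b11 b y hy h1
      have hla : 0 < X.cs.length a := by
        rcases Nat.eq_zero_or_pos (X.cs.length a) with h | h
        · exact absurd (X.cs.length_eq_zero_iff.1 h) ha1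
        · exact h
      have haK' : a ∉ par X.cs X.K := fun h => ha1 (A.b8 a (Or.inr haK) h)
      obtain ⟨z, k, rfl, hk, hz, hzb, hzK, hz1⟩ := split A b g hg hgK
      have e1 := N_mul_right A b x z hx hzb hzK
      have e2 := ih (X.cs.length y') (by omega) (!b) 1 a y' rfl ⟨XR_one _, ha, haK', hy'⟩
      have hxz : XR X.cs (X.F (!b)) (x * z) := by
        refine A.b7 (!b) x z ?_ ?_ hz hz1
        · rwa [Bool.not_not]
        · rwa [Bool.not_not]
      have hka : k * a ∉ par X.cs X.K := fun h => haK' ((Subgroup.mul_mem_cancel_left _ hk).1 h)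
      have e3 := ih (X.cs.length y') (by omega) (!b) (x * z) (k * a) y' rfl
        ⟨hxz, mul_mem (A.b1 _ hk) ha, hka, hy'⟩
      rw [one_mul, N_one] at e2
      rw [show x * (z * k) * (a * y') = x * z * (k * a) * y' by simp only [mul_assoc], e3, e1, e2]
      omega

lemma N_Kmul (A : Ax X) (w k : W) (hk : k ∈ par X.cs X.K) : N A (k * w) = N A w := by
  have key : ∀ κ ∈ par X.cs X.K, ∀ y, XL X.cs X.K y → N A (κ * y) = N A y := by
    intro κ hκ y hy
    by_cases h1 : y = 1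
    · rw [h1, mul_one, N_K A κ hκ, N_one]
    · obtain ⟨b, hb⟩ := A.b9 y hy
      obtain ⟨a, y', rfl, hy', ha, haK, ha1, _⟩ := A.b11 b y hb h1
      have haK' : a ∉ par X.cs X.K := fun h => ha1 (A.b8 a (Or.inr haK) h)
      have hka : κ * a ∉ par X.cs X.K := fun h => haK' ((Subgroup.mul_mem_cancel_left _ hκ).1 h)
      have e1 := N_tp A _ (!b) 1 a y' rfl ⟨XR_one _, ha, haK', hy'⟩
      have e2 := N_tp A _ (!b) 1 (κ * a) y' rfl ⟨XR_one _, mul_mem (A.b1 _ hκ) ha, hka, hy'⟩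
      rw [one_mul] at e1 e2
      rw [← mul_assoc, e1, e2]
  obtain ⟨l, hl, y, hy, rfl⟩ := A.decL X.K w
  rw [← mul_assoc, key _ (mul_mem hk hl) y hy, key _ hl y hy]

lemma N_lem (A : Ax X) (b : Bool) (g y : W) (hg : g ∈ par X.cs (X.F b))
    (hy : XL X.cs (X.F b) y) : N A y ≤ N A (g * y) ∧ N A (g * y) ≤ N A y + 1 := by
  by_cases hgK : g ∈ par X.cs X.K
  · rw [N_Kmul A y g hgK]
    omega
  · have e1 := N_tp A _ b 1 g y rfl ⟨XR_one _, hg, hgK, hy⟩
    rw [one_mul, N_one] at e1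
    omega

lemma N_mul_le (A : Ax X) (b : Bool) (g w : W) (hg : g ∈ par X.cs (X.F b)) :
    N A (g * w) ≤ N A w + 1 := by
  obtain ⟨l, hl, y, hy, rfl⟩ := A.decL (X.F b) w
  have h1 := N_lem A b l y hl hy
  have h2 := N_lem A b (g * l) y (mul_mem hg hl) hy
  rw [← mul_assoc]
  omega

lemma N_list_le (A : Ax X) (w : W) : ∀ l : List W, (∀ g ∈ l, ∃ b, g ∈ par X.cs (X.F b)) →
    N A (l.prod * w) ≤ l.length + N A w := by
  intro l
  induction l with
  | nil =>
    intro _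
    simp
  | cons g l ih =>
    intro h
    obtain ⟨b, hb⟩ := h g (by simp)
    have h1 := ih fun g' hg' => h g' (List.mem_cons_of_mem _ hg')
    have h2 := N_mul_le A b g (l.prod * w) hb
    rw [List.prod_cons, List.length_cons, mul_assoc]
    omega

lemma Nf.list {b : Bool} {n : ℕ} {x : W} (h : Nf X b n x) :
    ∃ l : List W, l.length = n ∧ (∀ g ∈ l, ∃ b, g ∈ par X.cs (X.F b)) ∧ l.prod = x := by
  induction h with
  | zero b => exact ⟨[], rfl, by simp, rfl⟩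
  | succ c m x a h1 h2 h3 h4 ih =>
    obtain ⟨l, e1, e2, e3⟩ := ih
    refine ⟨l ++ [a], by simp [e1], ?_, by simp [e3]⟩
    intro g hg
    rcases List.mem_append.1 hg with h | h
    · exact e2 g h
    · rw [List.mem_singleton] at h
      exact ⟨c, h ▸ h2⟩

lemma sl_eq (A : Ax X) (w : W) : X.sl w = N A w := by
  obtain ⟨b, x, k, h1, h2, h3⟩ := N_spec A w
  obtain ⟨l, e1, e2, e3⟩ := h1.list
  have hmem : N A w ∈ {n | ∃ l : List W, l.length = n ∧ (∀ g ∈ l, ∃ b, g ∈ par X.cs (X.F b)) ∧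
      ∃ k ∈ par X.cs X.K, w = l.prod * k} := ⟨l, e1, e2, k, h2, by rw [e3, ← h3]⟩
  refine le_antisymm (Nat.sInf_le hmem) ?_
  obtain ⟨l', f1, f2, k', f3, f4⟩ := Nat.sInf_mem (Set.nonempty_of_mem hmem)
  have h5 := N_list_le A k' l' f2
  rw [← f4, N_K A k' f3, add_zero, f1] at h5
  exact h5

lemma sl_list (A : Ax X) (w : W) : ∃ l : List W, l.length = N A w ∧
    (∀ g ∈ l, ∃ b, g ∈ par X.cs (X.F b)) ∧ ∃ k ∈ par X.cs X.K, w = l.prod * k := by
  obtain ⟨b, x, k, h1, h2, h3⟩ := N_spec A w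
  obtain ⟨l, e1, e2, e3⟩ := h1.list
  exact ⟨l, e1, e2, k, h2, by rw [e3, ← h3]⟩

lemma N_inv_le (A : Ax X) (w : W) : N A w⁻¹ ≤ N A w := by
  obtain ⟨l, h1, h2, k, h3, h4⟩ := sl_list A w
  have h5 : w⁻¹ = k⁻¹ * ((l.map fun g => g⁻¹).reverse.prod * 1) := by
    rw [h4, mul_inv_rev, List.prod_inv_reverse, mul_one]
  rw [h5, N_Kmul A _ _ (inv_mem h3), ← h1]
  have h6 := N_list_le A 1 (l.map fun g => g⁻¹).reverse (by
    intro g hg
    rw [List.mem_reverse, List.mem_map] at hg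
    obtain ⟨g', hg', rfl⟩ := hg
    obtain ⟨b, hb⟩ := h2 g' hg'
    exact ⟨b, inv_mem hb⟩)
  rw [N_one, List.length_reverse, List.length_map] at h6
  exact h6

theorem h_b_3 (hPA : G_PA) (hPC : G_PC) (hB1 : B_1) : B_3 := by
  intro S W H _ _ _ X
  obtain ⟨c1, c2, c3, c4, c5, c6, c7, c8, c9, c10, c11, c12, c13⟩ := hB1 S W H X
  have A : Ax X :=
    { dec := fun P => (hPA S W X.M X.cs P).2.1
      len := fun P => (hPA S W X.M X.cs P).2.2
      uni := fun P => (hPC S W X.M X.cs P).1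
      decL := fun P => (hPC S W X.M X.cs P).2.2.2.1
      b1 := c1
      b3 := fun b x => (c3 b x).1
      b4 := c4
      b5 := c5
      b6 := c6
      b7 := c7
      b8 := c8
      b9 := c9
      b11 := c11 }
  simp only [sl_eq A]
  refine ⟨N_eq_zero A, ?_, ?_, ?_, ?_, ?_, ?_, ?_, ?_⟩
  · intro b x g y h
    exact N_tp A _ b x g y rfl h
  · intro b x k y hx hk hy
    by_cases h1 : x = 1
    · rw [h1, one_mul, N_one, N_Kmul A y k hk, zero_add]
    · obtain ⟨x', a, rfl, hx', ha, haK, ha1, _⟩ := A.b6 b x hx h1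
      have haK' : a ∉ par X.cs X.K := fun h => ha1 (A.b8 a (Or.inl haK) h)
      have hak : a * k ∉ par X.cs X.K := fun h => haK' ((Subgroup.mul_mem_cancel_right _ hk).1 h)
      have e1 := N_mul_right A (!b) x' a hx' ha haK'
      have e2 := N_tp A _ (!b) x' (a * k) y rfl ⟨hx', mul_mem ha (A.b1 _ hk), hak, hy⟩
      rw [show x' * a * k * y = x' * (a * k) * y by simp only [mul_assoc], e2, e1]
  · intro w
    refine le_antisymm (N_inv_le A w) ?_
    have := N_inv_le A w⁻¹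
    rwa [inv_inv] at this
  · intro w k hk
    exact ⟨N_mulK A w k hk, N_Kmul A w k hk⟩
  · intro b g hg
    have := N_mul_le A b g 1 hg
    rwa [mul_one, N_one, zero_add] at this
  · intro u v
    obtain ⟨l, h1, h2, k, h3, h4⟩ := sl_list A u
    have h5 := N_list_le A (k * v) l h2
    rw [← mul_assoc, ← h4, N_Kmul A v k h3, h1] at h5
    exact h5
  · intro b x l hx hl hlK
    exact N_mul_right A b x l hx hl hlK
  · intro b y l hy hl hlK
    have e1 := N_tp A _ b 1 l y rfl ⟨XR_one _, hl, hlK, hy⟩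
    rw [one_mul, N_one] at e1
    omega

end Pool.Agent.Helper97.AM
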